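import Pool.Agent.Lib.MP_bc3ae6_ag.VF2

set_option autoImplicit false

/-!
Berman's invariant `γ(X)` equals the stability threshold `δ(X) = inf_E A_X(E) / S(E)`.

Dictionary.  `X` Fano of dimension `d`, `r` the Cartier index of `K_X`,
`R = ⊕ₘ H⁰(X, -rmK_X) = ℂ[x₁,…,x_M]/I` (weights `wt`), `Z` the affine cone, `Z \ {0} → X` the
`ℂ*`-bundle of `rK_X`, `θ` a homogeneous Noether normalisation `A = ℂ[θ₀,…,θ_d] ⊆ R`.  The canonical
module is `ω_R = R^∨ dθ` (`R^∨` the trace dual), `ω_R^{[r]}` has a homogeneous generator `Ω`, and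
`(dθ)^r = f Ω`.  Prime divisors over `X` correspond to the `ℂ*`-invariant prime divisors over `Z`
whose centre meets `Z \ {0}`, with the same log discrepancy, and log canonical thresholds on `X^N`
are computed on the `(ℂ*)^N`-bundle `(Z \ {0})^N`, whose `r`-canonical generator is the product of
the pull-backs of `Ω`.
-/

namespace Pool.Agent.Results.MP_bc3ae6_ag.GammaIsDelta

open MvPolynomial Filter Topology Set Pool.Agent.Lib.MP_bc3ae6_ag
open scoped ENNReal NNReal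

/-- `s` represents a basis of the degree `m` part of the graded ring `ℂ[x₁,…,x_M]/I`. -/
def IsBasis {M : ℕ} (I : Ideal (MvPolynomial (Fin M) ℂ)) (wt : Fin M → ℕ) (m : ℕ) {N : ℕ}
    (s : Fin N → MvPolynomial (Fin M) ℂ) : Prop :=
  (∀ i, (s i).IsWeightedHomogeneous wt m) ∧
    LinearIndependent ℂ (fun i => Ideal.Quotient.mk I (s i)) ∧
    ∀ p : MvPolynomial (Fin M) ℂ, p.IsWeightedHomogeneous wt m →
      Ideal.Quotient.mk I p ∈ Submodule.span ℂ (range fun i => Ideal.Quotient.mk I (s i))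

theorem result {d M : ℕ} (hd : 0 < d) (wt : Fin M → ℕ) (hwt : ∀ l, 0 < wt l)
    (I : Ideal (MvPolynomial (Fin M) ℂ)) (hI : I.IsPrime)
    (hIh : ∀ p ∈ I, ∀ k, weightedHomogeneousComponent wt k p ∈ I)
    (θ : Fin (d + 1) → MvPolynomial (Fin M) ℂ) (e : ℕ) (he : 0 < e)
    (hθ : ∀ i, (θ i).IsWeightedHomogeneous wt e)
    [Algebra (MvPolynomial (Fin (d + 1)) ℂ) (MvPolynomial (Fin M) ℂ ⧸ I)]
    (halg : ∀ p, algebraMap (MvPolynomial (Fin (d + 1)) ℂ) (MvPolynomial (Fin M) ℂ ⧸ I) p =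
      Ideal.Quotient.mk I (aeval θ p))
    (hfin : Module.Finite (MvPolynomial (Fin (d + 1)) ℂ) (MvPolynomial (Fin M) ℂ ⧸ I))
    (hinj : Function.Injective
      (algebraMap (MvPolynomial (Fin (d + 1)) ℂ) (MvPolynomial (Fin M) ℂ ⧸ I)))
    (K L : Type) [Field K] [Field L] [Algebra (MvPolynomial (Fin (d + 1)) ℂ) K]
    [IsFractionRing (MvPolynomial (Fin (d + 1)) ℂ) K] [Algebra (MvPolynomial (Fin M) ℂ ⧸ I) L]
    [IsFractionRing (MvPolynomial (Fin M) ℂ ⧸ I) L] [Algebra K L]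
    [Algebra (MvPolynomial (Fin (d + 1)) ℂ) L] [IsScalarTower (MvPolynomial (Fin (d + 1)) ℂ) K L]
    [IsScalarTower (MvPolynomial (Fin (d + 1)) ℂ) (MvPolynomial (Fin M) ℂ ⧸ I) L]
    (r : ℕ) (hr : 0 < r) (f : MvPolynomial (Fin M) ℂ) (df : ℕ)
    (hfh : f.IsWeightedHomogeneous wt df) (hf : f ∉ I)
    (hcan : ∀ g : L, (∀ y : MvPolynomial (Fin M) ℂ ⧸ I, Algebra.trace K L (g * algebraMap _ L y) ∈
        (algebraMap (MvPolynomial (Fin (d + 1)) ℂ) K).range) →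
      algebraMap _ L (Ideal.Quotient.mk I f) * g ^ r ∈
        (algebraMap (MvPolynomial (Fin M) ℂ ⧸ I) L).range)
    (hb : ∀ᶠ m in atTop, ∀ x ∈ zeroLocus ℂ I, x ≠ 0 →
      ∃ p : MvPolynomial (Fin M) ℂ, p.IsWeightedHomogeneous wt m ∧ eval x p ≠ 0)
    (hklt : ∀ E : PrimeDiv (FnF I) (Fin (d + 1)), E.Meets (zeroLocus ℂ I \ {0}) → E.Homog wt →
      0 < E.A θ f r)
    (N : ℕ → ℕ) (s : ∀ m, Fin (N m) → MvPolynomial (Fin M) ℂ) (hs : ∀ m, IsBasis I wt m (s m)) :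
    Tendsto (fun m : ℕ => lct
        (vanishingIdeal ℂ {x : Fin (N m) × Fin M → ℂ | ∀ j, (fun l => x (j, l)) ∈ zeroLocus ℂ I})
        (fun q : Fin (N m) × Fin (d + 1) => rename (Prod.mk q.1) (θ q.2))
        (∏ j, rename (Prod.mk j) f) r {x | ∀ j, (fun l => x (j, l)) ∈ zeroLocus ℂ I \ {0}}
        (Matrix.of fun i j => rename (Prod.mk j) (s m i)).det (1 / (r * m))) atTop
      (𝓝 (⨅ (E : PrimeDiv (FnF I) (Fin (d + 1))) (_ : E.Meets (zeroLocus ℂ I \ {0}))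
        (_ : E.Homog wt), ENNReal.ofReal (E.A θ f r) / E.S wt r d)) := by
  have hA : AS I θ := ⟨hI, halg, hfin, hinj⟩
  obtain ⟨D, F, h, hG⟩ := hA.exists_geo
  have hH : Hom I θ wt e := ⟨hwt, hIh, hθ, he⟩
  have hNB : NB I θ f (1 / r) := hA.nb (K := K) (L := L) hG (by omega) hf hr fun g hg =>
    Submodule.mem_one.2 (hcan g fun y =>
      Submodule.mem_traceDual.1 hg _ (Submodule.mem_one.2 ⟨y, rfl⟩))
  simp only [IsBasis, ← bas_iff] at hs
  refine tendsto_order.2 ⟨fun a ha => ?_, fun a ha => ?_⟩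
  · obtain ⟨c, h1, h2⟩ := ENNReal.lt_iff_exists_nnreal_btwn.1 ha
    obtain ⟨c', h3, h4⟩ := ENNReal.lt_iff_exists_nnreal_btwn.1 h2
    filter_upwards [hA.le_gamma hG hH hb hd hfh hf hr hNB
      (ENNReal.coe_pos.1 (zero_le.trans_lt h1)) (ENNReal.coe_lt_coe.1 h3) fun E h5 h6 =>
        h4.trans_le ((iInf₂_le E h5).trans (iInf_le _ h6))] with m hm
    exact h1.trans_le (hm _ _ (hs m))
  · simp only [iInf_lt_iff] at ha
    obtain ⟨E, h1, h2, h3⟩ := ha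
    obtain ⟨c, h4, h5⟩ := ENNReal.lt_iff_exists_nnreal_btwn.1 h3
    rw [ENNReal.div_lt_iff (Or.inr (ENNReal.ofReal_pos.2 (hklt E h1 h2)).ne')
      (Or.inr ENNReal.ofReal_ne_top)] at h4
    obtain ⟨b, h6, h7⟩ : ∃ b < E.S wt r d, ENNReal.ofReal (E.A θ f r) < c * b := by
      by_contra! hc
      exact h4.not_ge (ENNReal.mul_le_of_forall_lt fun a' ha b' hb =>
        (mul_le_mul_left ha.le _).trans (hc b' hb))
    lift b to ℝ≥0 using h6.ne_top
    filter_upwards [hA.gamma_le hG hH hb hf hr E h1 h6] with m hm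
    refine not_le.1 fun h8 => h7.not_ge ?_
    rw [← ENNReal.coe_mul, ← ENNReal.ofReal_coe_nnreal]
    exact ENNReal.ofReal_le_ofReal (hm _ _ (hs m) c (h5.trans_le h8))

end Pool.Agent.Results.MP_bc3ae6_ag.GammaIsDelta
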